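import Pool.Agent.Helper12_XQ.Stmt
import Pool.Agent.Helper44_BLK.TanInt

/-! Squad XQ, module U_FOUR. -/

set_option autoImplicit false

namespace Pool.Agent.XQ.U.H21

open MeasureTheory Filter Topology Real Set Pool.Agent.AEU Pool.Agent.AEU.H12 Pool.Agent.XQ

theorem four : FourStmt := by
  intro b hb
  obtain ⟨hb1, hb2⟩ := hb
  have hb0 : 0 < b := by linarith
  have hpi := Real.pi_pos
  have hq : 0 < π / b := by positivity
  have hq1 : π / b < π := by
    rw [div_lt_iff₀ hb0]
    nlinarith
  have hq2 : π / 2 < π / b := by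
    rw [lt_div_iff₀ hb0]
    nlinarith
  have hp : |π - π / b| = π - π / b := abs_of_pos (by linarith)
  have e1 : π / (2 * (π / b)) = b / 2 := by
    field_simp
  have e2 : π * (π - π / b) / (π / b) = b * π - π := by
    field_simp
  constructor
  · intro φ h0 h1
    have hc : |2 * φ| = 2 * φ := abs_of_nonneg (by linarith)
    have key := AEU.H44.int_cosh (π / b) (π - π / b) (2 * φ) hq (by rw [hp, hc]; linarith)
    have e3 : π * (2 * φ) / (π / b) = 2 * b * φ := by
      field_simp
    have e : ∀ τ : ℝ, Real.sinh ((π - π / b) * τ) / Real.sinh (π / b * τ) * Real.cosh (2 * φ * τ)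
        = cosh (2 * τ * φ) * WW b τ := by
      intro τ
      unfold WW
      rw [mul_comm]
      congr 2
      ring
    simp only [e] at key
    refine ⟨key.1, ?_⟩
    rw [key.2, e1, e2, e3, sin_sub_pi, cos_sub_pi]
    rw [mul_div_assoc]
    rfl
  · intro u
    have key := AEU.H44.int_cos (π / b) (π - π / b) (2 * u) hq (by rw [hp]; linarith)
    have e3 : π * (2 * u) / (π / b) = b * (2 * u) := by
      field_simp
    have e : ∀ τ : ℝ, Real.sinh ((π - π / b) * τ) / Real.sinh (π / b * τ) * Real.cos (2 * u * τ)
        = cos (2 * τ * u) * WW b τ := by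
      intro τ
      unfold WW
      rw [mul_comm]
      congr 2
      ring
    simp only [e] at key
    rw [key.2, e1, e2, e3, sin_sub_pi, cos_sub_pi]
    unfold KKf
    rw [mul_div_assoc]
    rfl

end Pool.Agent.XQ.U.H21
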