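import Pool.Agent.Helper35_XQ.Stmt
import Pool.Agent.Helper60_AEU.Ldm
import Pool.Agent.Helper44_BLK.Psg

/-! Squad XQ, Part A2, module GI_BND. -/

set_option autoImplicit false

namespace Pool.Agent.XQ.GI.H21

open MeasureTheory Complex Filter Topology Pool.Agent.H62T Pool.Agent.H60K Pool.Agent.XQ.GI

/-! ### Words -/

/-- if a realizable label reads the letter `s`, it reads at least the first letter of a word
which begins with `s` -/
lemma run_cons (l : List (Finset (Fin 3))) (s : Fin 3) (w : List (Fin 3)) (hw : (s :: w).Nodup)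
    (h : run l (sg s) = em) : (run l ⟨s :: w, hw⟩).1 <:+ w := by
  induction l with
  | nil =>
    exfalso
    have : (sg s).1 = em.1 := congrArg Subtype.val h
    simp [sg, em] at this
  | cons c l ih =>
    by_cases hs : s ∈ c
    · -- the letter is erased now
      have h1 : (rd c ⟨s :: w, hw⟩).1 <:+ w := by
        simp only [rd, List.dropWhile_cons]
        rw [if_pos (by simpa using hs)]
        exact List.dropWhile_suffix _
      have h2 : ∀ (l : List (Finset (Fin 3))) (v : Wd), (run l v).1 <:+ v.1 := by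
        intro l
        induction l with
        | nil => intro v; exact List.suffix_refl _
        | cons c l ih =>
          intro v
          exact (ih (rd c v)).trans (List.dropWhile_suffix _)
      exact (h2 l (rd c ⟨s :: w, hw⟩)).trans h1
    · have h1 : rd c ⟨s :: w, hw⟩ = ⟨s :: w, hw⟩ := by
        apply Subtype.ext
        simp [rd, hs]
      have h2 : rd c (sg s) = sg s := by
        apply Subtype.ext
        simp [rd, sg, hs]
      have h3 : run (c :: l) (sg s) = run l (rd c (sg s)) := rfl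
      have h4 : run (c :: l) ⟨s :: w, hw⟩ = run l (rd c ⟨s :: w, hw⟩) := rfl
      rw [h4, h1]
      rw [h3, h2] at h
      exact ih h

lemma rz_cons {f : Lb} (hf : Rz f) (s : Fin 3) (w : List (Fin 3)) (hw : (s :: w).Nodup)
    (h : f (sg s) = em) : (f ⟨s :: w, hw⟩).1 <:+ w := by
  obtain ⟨l, -, rfl⟩ := hf
  exact run_cons l s w hw h

lemma em_of_suffix {f : Lb} {v w : Wd} (hmono : ∀ v w : Wd, v.1 <:+ w.1 → (f v).1 <:+ (f w).1)
    (hvw : v.1 <:+ w.1) (h : f w = em) : f v = em := by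
  have h1 := hmono v w hvw
  rw [h] at h1
  apply Subtype.ext
  exact List.suffix_nil.1 h1

/-- the four blocks read `1 2 0` and `2 1 0` -/
lemma four_read (hL : LstStatement) {f1 f2 f3 f4 : Lb} (r1 : Rz f1) (r2 : Rz f2) (r3 : Rz f3)
    (r4 : Rz f4) (h1 : f1 (sg 1) = em) (h2 : f2 (sg 2) = em) (h3 : f3 (sg 1) = em)
    (h4 : f4 (sg 0) = em) :
    f4 (f3 (f2 (f1 w120))) = em ∧ f4 (f3 (f2 (f1 w210))) = em := by
  obtain ⟨-, hem, hsuf, hmono, -⟩ := hL
  have em1 : (em : Wd).1 = [] := rfl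
  constructor
  · -- 1 2 0
    have a1 : (f1 w120).1 <:+ [2, 0] := rz_cons r1 1 [2, 0] (by decide) h1
    have a2 : (f2 (f1 w120)).1 <:+ (f2 ⟨[2, 0], by decide⟩).1 := hmono f2 r2 _ _ a1
    have a3 : (f2 ⟨[2, 0], by decide⟩).1 <:+ [0] := rz_cons r2 2 [0] (by decide) h2
    have a4 : (f3 (f2 (f1 w120))).1 <:+ [0] := (hsuf f3 r3 _).trans (a2.trans a3)
    exact em_of_suffix (w := sg 0) (hmono f4 r4) a4 h4
  · -- 2 1 0
    have a1 : (f1 w210).1 <:+ [2, 1, 0] := hsuf f1 r1 _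
    have a2 : (f2 (f1 w210)).1 <:+ (f2 w210).1 := hmono f2 r2 _ _ a1
    have a3 : (f2 w210).1 <:+ [1, 0] := rz_cons r2 2 [1, 0] (by decide) h2
    have a4 : (f3 (f2 (f1 w210))).1 <:+ (f3 ⟨[1, 0], by decide⟩).1 :=
      hmono f3 r3 _ _ (a2.trans a3)
    have a5 : (f3 ⟨[1, 0], by decide⟩).1 <:+ [0] := rz_cons r3 1 [0] (by decide) h3
    exact em_of_suffix (w := sg 0) (hmono f4 r4) (a4.trans a5) h4

/-! ### Kernels with a condition on the label -/

open Classical in
/-- kernel of the paths whose label satisfies `P` -/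
noncomputable def KP (u : Fin 3 → ℂ) (h : Fin 3 → ℝ) (P : Lb → Prop) (t : ℝ) (x y : ℂ) : ℝ :=
  ∑ f : Lb, if P f then KO u h f t x y else 0

section
variable {u : Fin 3 → ℂ} {h : Fin 3 → ℝ}

lemma KO_le (hO : OrdStatement) (hu : ∀ s, ‖u s‖ = 1) (f : Lb) {t : ℝ} (ht : 0 < t) (x y : ℂ) :
    KO u h f t x y ≤ G t (x - y) := by
  obtain ⟨-, hO⟩ := hO u h hu
  obtain ⟨-, hnn, -, hsum, -, -⟩ := hO t x y ht
  rw [← hsum]
  exact Finset.single_le_sum (fun f _ => hnn f) (Finset.mem_univ f)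

lemma KP_nonneg (hO : OrdStatement) (hu : ∀ s, ‖u s‖ = 1) (P : Lb → Prop) {t : ℝ} (ht : 0 < t)
    (x y : ℂ) : 0 ≤ KP u h P t x y := by
  classical
  obtain ⟨-, hO⟩ := hO u h hu
  obtain ⟨-, hnn, -, -, -, -⟩ := hO t x y ht
  unfold KP
  refine Finset.sum_nonneg fun f _ => ?_
  split_ifs
  · exact hnn f
  · exact le_rfl

lemma KO_int (hO : OrdStatement) (hu : ∀ s, ‖u s‖ = 1) (f g : Lb) {t : ℝ} (ht : 0 < t)
    (x y : ℂ) : Integrable fun z => KO u h f t x z * KO u h g t z y := by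
  have hm := (hO u h hu).1
  have hnn : ∀ (f : Lb) (x y : ℂ), 0 ≤ KO u h f t x y := fun f x y =>
    ((hO u h hu).2 t x y ht).2.1 f
  have m1 : Measurable fun z => KO u h f t x z := by
    have := (hm f).comp (measurable_const.prodMk (measurable_const.prodMk measurable_id) :
      Measurable fun z : ℂ => ((t, x, z) : ℝ × ℂ × ℂ))
    simpa only [Function.comp_def] using this
  have m2 : Measurable fun z => KO u h g t z y := by
    have := (hm g).comp (measurable_const.prodMk (measurable_id.prodMk measurable_const) :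
      Measurable fun z : ℂ => ((t, z, y) : ℝ × ℂ × ℂ))
    simpa only [Function.comp_def] using this
  refine (AEU.H44.G_int2 ht ht x y).mono' (m1.mul m2).aestronglyMeasurable ?_
  refine Eventually.of_forall fun z => ?_
  rw [Real.norm_of_nonneg (mul_nonneg (hnn f x z) (hnn g z y))]
  exact mul_le_mul (KO_le hO hu f ht x z) (KO_le hO hu g ht z y) (hnn g z y)
    ((hnn f x z).trans (KO_le hO hu f ht x z))

/-- cutting a path in the middle -/
lemma KP_split (hO : OrdStatement) (hu : ∀ s, ‖u s‖ = 1) (P Q R : Lb → Prop)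
    (hP : ∀ f g : Lb, Rz f → Rz g → Q f → R g → P (fun w => g (f w))) {t : ℝ} (ht : 0 < t)
    (x y : ℂ) : (Integrable fun z => KP u h Q (t / 2) x z * KP u h R (t / 2) z y) ∧
      ∫ z, KP u h Q (t / 2) x z * KP u h R (t / 2) z y ≤ KP u h P t x y := by
  classical
  have ht2 : 0 < t / 2 := by positivity
  have hnn : ∀ (f : Lb) (x y : ℂ), 0 ≤ KO u h f (t / 2) x y := fun f x y =>
    ((hO u h hu).2 (t / 2) x y ht2).2.1 f
  have hrz : ∀ (f : Lb) (x y : ℂ), KO u h f (t / 2) x y ≠ 0 → Rz f := fun f x y =>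
    ((hO u h hu).2 (t / 2) x y ht2).2.2.1 f
  have hint : ∀ f g : Lb, Integrable fun z =>
      (if Q f then KO u h f (t / 2) x z else 0) * (if R g then KO u h g (t / 2) z y else 0) := by
    intro f g
    by_cases h1 : Q f
    · by_cases h2 : R g
      · simpa only [if_pos h1, if_pos h2] using KO_int hO hu f g ht2 x y
      · simp only [if_neg h2, mul_zero]
        exact integrable_zero _ _ _
    · simp only [if_neg h1, zero_mul]
      exact integrable_zero _ _ _
  have hexp : ∀ z, KP u h Q (t / 2) x z * KP u h R (t / 2) z y = ∑ f : Lb, ∑ g : Lb,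
      (if Q f then KO u h f (t / 2) x z else 0) * (if R g then KO u h g (t / 2) z y else 0) := by
    intro z
    unfold KP
    rw [Finset.sum_mul_sum]
  have hi : Integrable fun z => ∑ f : Lb, ∑ g : Lb,
      (if Q f then KO u h f (t / 2) x z else 0) * (if R g then KO u h g (t / 2) z y else 0) :=
    integrable_finsetSum _ fun f _ => integrable_finsetSum _ fun g _ => hint f g
  refine ⟨by simpa only [hexp] using hi, ?_⟩
  have e1 : ∫ z, KP u h Q (t / 2) x z * KP u h R (t / 2) z y = ∑ f : Lb, ∑ g : Lb,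
      if Q f ∧ R g then ∫ z, KO u h f (t / 2) x z * KO u h g (t / 2) z y else 0 := by
    simp only [hexp]
    rw [integral_finsetSum _ fun f _ => integrable_finsetSum _ fun g _ => hint f g]
    refine Finset.sum_congr rfl fun f _ => ?_
    rw [integral_finsetSum _ fun g _ => hint f g]
    refine Finset.sum_congr rfl fun g _ => ?_
    by_cases h1 : Q f
    · by_cases h2 : R g
      · simp only [if_pos h1, if_pos h2, if_pos (And.intro h1 h2)]
      · simp only [if_neg h2, mul_zero, integral_zero, h1, true_and]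
    · simp only [zero_mul, integral_zero, h1, false_and, if_false]
  have e2 : KP u h P t x y = ∑ f : Lb, ∑ g : Lb,
      if P (fun w => g (f w)) then ∫ z, KO u h f (t / 2) x z * KO u h g (t / 2) z y else 0 := by
    unfold KP
    have e3 : ∀ k : Lb, (if P k then KO u h k t x y else 0) = ∑ f : Lb, ∑ g : Lb,
        if k = (fun w => g (f w)) then (if P (fun w => g (f w)) then
          ∫ z, KO u h f (t / 2) x z * KO u h g (t / 2) z y else 0) else 0 := by
      intro k
      rw [((hO u h hu).2 t x y ht).2.2.2.2.1 k]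
      by_cases hk : P k
      · rw [if_pos hk]
        refine Finset.sum_congr rfl fun f _ => Finset.sum_congr rfl fun g _ => ?_
        by_cases h1 : k = fun w => g (f w)
        · rw [if_pos h1, if_pos h1, if_pos (h1 ▸ hk)]
        · rw [if_neg h1, if_neg h1]
      · rw [if_neg hk]
        symm
        refine Finset.sum_eq_zero fun f _ => Finset.sum_eq_zero fun g _ => ?_
        by_cases h1 : k = fun w => g (f w)
        · rw [if_pos h1, if_neg (h1 ▸ hk)]
        · rw [if_neg h1]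
    simp only [e3]
    rw [Finset.sum_comm]
    refine Finset.sum_congr rfl fun f _ => ?_
    rw [Finset.sum_comm]
    refine Finset.sum_congr rfl fun g _ => ?_
    rw [Finset.sum_ite_eq' Finset.univ (fun w => g (f w)), if_pos (Finset.mem_univ _)]
  rw [e1, e2]
  refine Finset.sum_le_sum fun f _ => Finset.sum_le_sum fun g _ => ?_
  have hpos : 0 ≤ ∫ z, KO u h f (t / 2) x z * KO u h g (t / 2) z y :=
    integral_nonneg fun z => mul_nonneg (hnn f x z) (hnn g z y)
  by_cases hQR : Q f ∧ R g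
  · rw [if_pos hQR]
    by_cases hP1 : P (fun w => g (f w))
    · rw [if_pos hP1]
    · rw [if_neg hP1]
      apply le_of_eq
      have : ∀ z, KO u h f (t / 2) x z * KO u h g (t / 2) z y = 0 := by
        intro z
        by_contra hne
        have hf : KO u h f (t / 2) x z ≠ 0 := left_ne_zero_of_mul hne
        have hg : KO u h g (t / 2) z y ≠ 0 := right_ne_zero_of_mul hne
        exact hP1 (hP f g (hrz f _ _ hf) (hrz g _ _ hg) hQR.1 hQR.2)
      simp only [this, integral_zero]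
  · rw [if_neg hQR]
    split_ifs
    · exact hpos
    · exact le_rfl

end

/-! ### The band -/

section band
variable (α b : ℝ)

lemma uI_norm (s : Fin 3) : ‖uI α s‖ = 1 := by
  have h : ‖uI α s‖ ^ 2 = 1 := by
    rw [Complex.sq_norm, Complex.normSq_apply]
    have := Real.sin_sq_add_cos_sq α
    fin_cases s <;> simp [uI] <;> linarith only [this]
  have h2 := norm_nonneg (uI α s)
  nlinarith only [h, h2, sq_nonneg (‖uI α s‖ - 1)]

lemma rf_one (y : ℂ) : rf (uI α) (hI α b) 1 y = (starRingEnd ℂ) y := by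
  apply Complex.ext
  · simp [rf, uI, hI, ip]
  · simp [rf, uI, hI, ip]
    ring

lemma uI_zero : uI α 0 = ⟨-Real.sin α, Real.cos α⟩ := by simp [uI]
lemma uI_two : uI α 2 = ⟨Real.sin α, Real.cos α⟩ := by simp [uI]
lemma uI_one : uI α 1 = ⟨0, -1⟩ := by simp [uI]
lemma hI_zero : hI α b 0 = b / 2 * Real.sin α := by simp [hI]
lemma hI_two : hI α b 2 = b / 2 * Real.sin α := by simp [hI]
lemma hI_one : hI α b 1 = 0 := by simp [hI]

/-- the translation along the band -/
lemma rf_trans (x : ℂ) :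
    (starRingEnd ℂ) (rf (uI α) (hI α b) 2 ((starRingEnd ℂ) (rf (uI α) (hI α b) 0 x)))
      = x - ((4 * (b / 2 * Real.sin α) : ℝ) : ℂ) * uI α 0 := by
  have e := Real.sin_sq_add_cos_sq α
  unfold rf
  rw [uI_zero, uI_two, hI_zero, hI_two]
  generalize b / 2 * Real.sin α = l
  set S := Real.sin α with hS
  set C := Real.cos α with hC
  have e2 : C ^ 2 = 1 - S ^ 2 := by linarith
  apply Complex.ext
  · simp only [ip, sub_re, sub_im, mul_re, mul_im, ofReal_re, ofReal_im, conj_re, conj_im]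
    linear_combination (4 * x.re * S ^ 2 - 4 * S * C * x.im + 4 * l * S) * e
  · simp only [ip, sub_re, sub_im, mul_re, mul_im, ofReal_re, ofReal_im, conj_re, conj_im]
    linear_combination (-(4 * S * C * x.re) + 4 * C ^ 2 * x.im - 4 * l * C) * e

lemma abs_ip_le {v w : ℂ} (hv : ‖v‖ = 1) : |ip v w| ≤ ‖w‖ := by
  have h1 : v.re ^ 2 + v.im ^ 2 = 1 := by
    rw [← nsq, hv]; norm_num
  have h2 : w.re ^ 2 + w.im ^ 2 = ‖w‖ ^ 2 := by rw [nsq]
  apply abs_le_of_sq_le_sq _ (norm_nonneg _)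
  unfold ip
  nlinarith [sq_nonneg (v.re * w.im - v.im * w.re)]

lemma norm_add_sq {v g : ℂ} {l : ℝ} (hv : ‖v‖ = 1) :
    ‖(l : ℂ) * v + g‖ ^ 2 = l ^ 2 + 2 * l * ip v g + ‖g‖ ^ 2 := by
  have h1 : v.re ^ 2 + v.im ^ 2 = 1 := by
    rw [← nsq, hv]; norm_num
  rw [nsq, nsq]
  unfold ip
  simp only [add_re, add_im, mul_re, mul_im, ofReal_re, ofReal_im]
  linear_combination l ^ 2 * h1

end band

lemma lb_ball {F : ℂ → ℝ} (hF : Integrable F) (hnn : ∀ z, 0 ≤ F z) (c : ℂ) {ρ m : ℝ} (hρ : 0 < ρ)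
    (hm : ∀ z ∈ Metric.ball c ρ, m ≤ F z) : m * (Real.pi * ρ ^ 2) ≤ ∫ z, F z := by
  have h1 : ∫ z in Metric.ball c ρ, F z ≤ ∫ z, F z :=
    setIntegral_le_integral hF (Eventually.of_forall hnn)
  have hv : (volume.real (Metric.ball c ρ)) = Real.pi * ρ ^ 2 := by
    rw [Measure.real, Complex.volume_ball, ENNReal.toReal_mul, ENNReal.toReal_pow,
      ENNReal.toReal_ofReal hρ.le, ENNReal.coe_toReal, NNReal.coe_real_pi]
    ring
  have hfin : volume (Metric.ball c ρ) ≠ ⊤ := measure_ball_lt_top.ne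
  have h2 : ∫ _ in Metric.ball c ρ, m ≤ ∫ z in Metric.ball c ρ, F z :=
    setIntegral_mono_on (integrableOn_const hfin) hF.integrableOn measurableSet_ball hm
  rw [setIntegral_const, hv, smul_eq_mul] at h2
  linarith

/-! ### The lower bound -/

section main
variable {α b : ℝ}

/-- one step -/
lemma KP_one (hOne : OneStatement) (s : Fin 3) {t : ℝ} (ht : 0 < t) {z x : ℂ}
    (hz : ip (uI α s) z < hI α b s) (hx : ip (uI α s) x < hI α b s) :
    KP (uI α) (hI α b) (fun f => f (sg s) = em) t z x = G t (z - rf (uI α) (hI α b) s x) := by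
  classical
  have h := hOne (uI α) (hI α b) (uI_norm α) s t z x ht hz hx
  rw [← h]
  unfold KP
  refine Finset.sum_congr rfl fun f _ => ?_
  split_ifs <;> rfl

lemma G_quarter {t : ℝ} (z : ℂ) : G (t / 2 / 2) z = Real.exp (-(‖z‖ ^ 2 / t)) / (Real.pi * t) := by
  unfold G
  have e1 : 4 * (t / 2 / 2) = t := by ring
  have e2 : 4 * Real.pi * (t / 2 / 2) = Real.pi * t := by ring
  rw [e1, e2]
  congr 2
  ring

/-- two steps: the mass of the paths from `x` to `z` through the ball around `c` -/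
lemma two_steps (hO : OrdStatement) (hOne : OneStatement) (s s' : Fin 3) (P : Lb → Prop)
    (hP : ∀ f g : Lb, Rz f → Rz g → f (sg s) = em → g (sg s') = em → P (fun w => g (f w)))
    {t ρ Q : ℝ} (ht : 0 < t) (hρ : 0 < ρ) {x z c : ℂ}
    (hx : ip (uI α s) x < hI α b s) (hz : ip (uI α s') z < hI α b s')
    (hc1 : ∀ y ∈ Metric.ball c ρ, ip (uI α s) y < hI α b s)
    (hc2 : ∀ y ∈ Metric.ball c ρ, ip (uI α s') y < hI α b s')
    (hQ : ∀ y ∈ Metric.ball c ρ, ‖x - rf (uI α) (hI α b) s y‖ ^ 2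
      + ‖y - rf (uI α) (hI α b) s' z‖ ^ 2 ≤ Q) :
    Real.exp (-(Q / t)) / (Real.pi * t) ^ 2 * (Real.pi * ρ ^ 2)
      ≤ KP (uI α) (hI α b) P (t / 2) x z := by
  have ht2 : 0 < t / 2 := by positivity
  have ht4 : 0 < t / 2 / 2 := by positivity
  obtain ⟨hi, hle⟩ := KP_split hO (uI_norm α) (u := uI α) (h := hI α b) P
    (fun f => f (sg s) = em) (fun f => f (sg s') = em) hP ht2 x z
  refine le_trans ?_ hle
  refine lb_ball hi (fun y => mul_nonneg (KP_nonneg hO (uI_norm α) _ ht4 _ _)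
    (KP_nonneg hO (uI_norm α) _ ht4 _ _)) c hρ fun y hy => ?_
  have hpi := Real.pi_pos
  rw [KP_one hOne s ht4 hx (hc1 y hy), KP_one hOne s' ht4 (hc2 y hy) hz, G_quarter, G_quarter,
    div_mul_div_comm, ← Real.exp_add, ← sq]
  refine div_le_div_of_nonneg_right (Real.exp_le_exp.2 ?_) (by positivity)
  have := hQ y hy
  have h1 : (‖x - rf (uI α) (hI α b) s y‖ ^ 2 + ‖y - rf (uI α) (hI α b) s' z‖ ^ 2) / t ≤ Q / t :=
    div_le_div_of_nonneg_right this ht.le
  rw [add_div] at h1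
  linarith

/-- the base points of the band -/
lemma base_pts (hα0 : 0 < α) (hα : α < Real.pi / 2) (hb : 0 < b) :
    let l := b / 2 * Real.sin α
    (∀ s : Fin 3, s = 0 ∨ s = 1 → ∀ v : ℂ, ‖v - ((l / 2 : ℝ) : ℂ) * uI α 0‖ < l / 2 * Real.cos α →
      ip (uI α s) v < hI α b s) ∧
    (∀ s : Fin 3, s = 2 ∨ s = 1 → ∀ v : ℂ, ‖v - ((l / 2 : ℝ) : ℂ) * uI α 2‖ < l / 2 * Real.cos α →
      ip (uI α s) v < hI α b s) := by
  intro l
  have hS : 0 < Real.sin α := Real.sin_pos_of_pos_of_lt_pi hα0 (by linarith [Real.pi_pos])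
  have hC : 0 < Real.cos α := Real.cos_pos_of_mem_Ioo ⟨by linarith, hα⟩
  have hC1 : Real.cos α ≤ 1 := Real.cos_le_one α
  have hl : 0 < l := by positivity
  have e := Real.sin_sq_add_cos_sq α
  have hadd : ∀ (n v w : ℂ), ip n v = ip n w + ip n (v - w) := by
    intro n v w
    unfold ip
    simp only [sub_re, sub_im]
    ring
  constructor
  · intro s hs v hv
    have h1 := abs_ip_le (v := uI α s) (w := v - ((l / 2 : ℝ) : ℂ) * uI α 0) (uI_norm α s)
    have h2 := hadd (uI α s) v (((l / 2 : ℝ) : ℂ) * uI α 0)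
    have h3 := (abs_le.1 h1).2
    rcases hs with rfl | rfl
    · have h4 : ip (uI α 0) (((l / 2 : ℝ) : ℂ) * uI α 0) = l / 2 := by
        rw [uI_zero]
        simp only [ip, mul_re, mul_im, ofReal_re, ofReal_im]
        linear_combination (l / 2) * e
      rw [h2, h4, hI_zero]
      have : l / 2 * Real.cos α ≤ l / 2 := by nlinarith only [hC1, hl]
      change _ < l
      linarith
    · have h4 : ip (uI α 1) (((l / 2 : ℝ) : ℂ) * uI α 0) = -(l / 2 * Real.cos α) := by
        rw [uI_zero, uI_one]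
        simp only [ip, mul_re, mul_im, ofReal_re, ofReal_im]
        ring
      rw [h2, h4, hI_one]
      linarith
  · intro s hs v hv
    have h1 := abs_ip_le (v := uI α s) (w := v - ((l / 2 : ℝ) : ℂ) * uI α 2) (uI_norm α s)
    have h2 := hadd (uI α s) v (((l / 2 : ℝ) : ℂ) * uI α 2)
    have h3 := (abs_le.1 h1).2
    rcases hs with rfl | rfl
    · have h4 : ip (uI α 2) (((l / 2 : ℝ) : ℂ) * uI α 2) = l / 2 := by
        rw [uI_two]
        simp only [ip, mul_re, mul_im, ofReal_re, ofReal_im]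
        linear_combination (l / 2) * e
      rw [h2, h4, hI_two]
      have : l / 2 * Real.cos α ≤ l / 2 := by nlinarith only [hC1, hl]
      change _ < l
      linarith
    · have h4 : ip (uI α 1) (((l / 2 : ℝ) : ℂ) * uI α 2) = -(l / 2 * Real.cos α) := by
        rw [uI_two, uI_one]
        simp only [ip, mul_re, mul_im, ofReal_re, ofReal_im]
        ring
      rw [h2, h4, hI_one]
      linarith

/-- the labels of the first half of the band -/
def F1 (f : Lb) : Prop :=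
  ∃ f1 f2 : Lb, Rz f1 ∧ Rz f2 ∧ f1 (sg 1) = em ∧ f2 (sg 2) = em ∧ f = fun w => f2 (f1 w)

/-- the labels of the second half of the band -/
def F2 (f : Lb) : Prop :=
  ∃ f1 f2 : Lb, Rz f1 ∧ Rz f2 ∧ f1 (sg 1) = em ∧ f2 (sg 0) = em ∧ f = fun w => f2 (f1 w)

lemma dens (hL : LstStatement) (hO : OrdStatement) (hOne : OneStatement) (hα0 : 0 < α)
    (hα : α < Real.pi / 2) (hb : 0 < b) {t r ρ l : ℝ} (hl : l = b / 2 * Real.sin α) (ht : 0 < t)
    (hρ : 0 < ρ) (hρr : ρ ≤ r) (hr : 2 * r < l / 2 * Real.cos α) {x : ℂ}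
    (hx : ‖x - ((l / 2 : ℝ) : ℂ) * uI α 0‖ < r) :
    Real.exp (-((4 * l ^ 2 + 10 * ρ ^ 2) / t)) / (Real.pi * t) ^ 4 * (Real.pi * ρ ^ 2) ^ 3
      ≤ KP (uI α) (hI α b) (fun f => Lp f ∧ Lm f) t x x := by
  classical
  have hb1 := base_pts (b := b) hα0 hα hb
  simp only [← hl] at hb1
  obtain ⟨bp, bq⟩ := hb1
  have hpi := Real.pi_pos
  have ht2 : 0 < t / 2 := by positivity
  set J : ℂ → ℂ := fun z => (starRingEnd ℂ) z with hJ
  have Jn : ∀ z w : ℂ, ‖J z - J w‖ = ‖z - w‖ := by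
    intro z w
    rw [hJ]
    simp only
    rw [← map_sub, Complex.norm_conj]
  have JJ : ∀ z : ℂ, J (J z) = z := fun z => Complex.conj_conj z
  set R2 : ℂ → ℂ := rf (uI α) (hI α b) 2 with hR2
  have Rn : ∀ z w : ℂ, ‖R2 z - R2 w‖ = ‖z - w‖ := by
    intro z w
    have h := (rf_isometry (u := uI α) (h := hI α b) (s := 2) (uI_norm α 2)).dist_eq z w
    rwa [dist_eq_norm, dist_eq_norm] at h
  have RR : ∀ z : ℂ, R2 (R2 z) = z := fun z => rf_rf (uI_norm α 2) z
  have e := Real.sin_sq_add_cos_sq α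
  set u0 : ℂ := uI α 0 with hu0
  set u2 : ℂ := uI α 2 with hu2
  have hRq : R2 (((l / 2 : ℝ) : ℂ) * u2) = ((3 / 2 * l : ℝ) : ℂ) * u2 := by
    rw [hR2, hu2]
    unfold rf
    rw [hI_two, ← hl, uI_two]
    apply Complex.ext
    · simp only [ip, sub_re, mul_re, mul_im, ofReal_re, ofReal_im]
      linear_combination (-(Real.sin α * l)) * e
    · simp only [ip, sub_im, mul_re, mul_im, ofReal_re, ofReal_im]
      linear_combination (-(Real.cos α * l)) * e
  have hRm : R2 (((-(l / 2) : ℝ) : ℂ) * u2) = ((5 / 2 * l : ℝ) : ℂ) * u2 := by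
    rw [hR2, hu2]
    unfold rf
    rw [hI_two, ← hl, uI_two]
    apply Complex.ext
    · simp only [ip, sub_re, mul_re, mul_im, ofReal_re, ofReal_im]
      linear_combination (Real.sin α * l) * e
    · simp only [ip, sub_im, mul_re, mul_im, ofReal_re, ofReal_im]
      linear_combination (Real.cos α * l) * e
  have hJu : ∀ a : ℝ, J ((a : ℂ) * u0) = ((-a : ℝ) : ℂ) * u2 := by
    intro a
    rw [hJ, hu0, hu2, uI_zero, uI_two]
    apply Complex.ext <;> simp
  set c1 : ℂ := J (x - ((l : ℝ) : ℂ) * u0) with hc1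
  set c2 : ℂ := R2 (J (x - ((2 * l : ℝ) : ℂ) * u0)) with hc2
  set c3 : ℂ := J (R2 (J (x - ((3 * l : ℝ) : ℂ) * u0))) with hc3
  have d1 : ‖c1 - ((l / 2 : ℝ) : ℂ) * u2‖ < r := by
    have : ((l / 2 : ℝ) : ℂ) * u2 = J (((-(l / 2) : ℝ) : ℂ) * u0) := by
      rw [hJu]; simp
    rw [this, hc1, Jn]
    refine lt_of_eq_of_lt ?_ hx
    congr 1
    push_cast
    ring
  have d2 : ‖c2 - ((l / 2 : ℝ) : ℂ) * u2‖ < r := by
    have h1 : ((l / 2 : ℝ) : ℂ) * u2 = R2 (((3 / 2 * l : ℝ) : ℂ) * u2) := by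
      rw [← hRq, RR]
    have h2 : ((3 / 2 * l : ℝ) : ℂ) * u2 = J (((-(3 / 2 * l) : ℝ) : ℂ) * u0) := by
      rw [hJu, neg_neg]
    rw [h1, h2, hc2, Rn, Jn]
    refine lt_of_eq_of_lt ?_ hx
    congr 1
    push_cast
    ring
  have d3 : ‖c3 - ((l / 2 : ℝ) : ℂ) * u0‖ < r := by
    have h1 : ((l / 2 : ℝ) : ℂ) * u0 = J (((-(l / 2) : ℝ) : ℂ) * u2) := by
      rw [← hJu, JJ]
    have h2 : ((-(l / 2) : ℝ) : ℂ) * u2 = R2 (((5 / 2 * l : ℝ) : ℂ) * u2) := by
      rw [← hRm, RR]
    have h3 : ((5 / 2 * l : ℝ) : ℂ) * u2 = J (((-(5 / 2 * l) : ℝ) : ℂ) * u0) := by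
      rw [hJu, neg_neg]
    rw [h1, h2, h3, hc3, Jn, Rn, Jn]
    refine lt_of_eq_of_lt ?_ hx
    congr 1
    push_cast
    ring
  have near : ∀ (c p v : ℂ), ‖c - p‖ < r → v ∈ Metric.ball c ρ → ‖v - p‖ < l / 2 * Real.cos α := by
    intro c p v hc hv
    rw [Metric.mem_ball, dist_eq_norm] at hv
    have : ‖v - p‖ ≤ ‖v - c‖ + ‖c - p‖ := by
      have h := norm_add_le (v - c) (c - p)
      have e : v - c + (c - p) = v - p := by ring
      rwa [e] at h
    linarith
  have hxp : ‖x - ((l / 2 : ℝ) : ℂ) * u0‖ < l / 2 * Real.cos α := by linarith only [hρ, hρr, hr, hx]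
  -- the algebra of the four steps
  have hn0 : ‖u0‖ = 1 := uI_norm α 0
  have hipsub : ∀ g g' : ℂ, ip u0 (g - g') = ip u0 g - ip u0 g' := by
    intro g g'
    unfold ip
    simp only [sub_re, sub_im]
    ring
  have hipneg : ∀ g : ℂ, ip u0 (-g) = -ip u0 g := by
    intro g
    unfold ip
    simp only [neg_re, neg_im]
    ring
  obtain ⟨hi, hle⟩ := KP_split hO (uI_norm α) (u := uI α) (h := hI α b) (fun f => Lp f ∧ Lm f)
    F1 F2 (by
      rintro f g - - ⟨f1, f2, r1, r2, h1, h2, rfl⟩ ⟨f3, f4, r3, r4, h3, h4, rfl⟩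
      obtain ⟨k1, k2⟩ := four_read hL r1 r2 r3 r4 h1 h2 h3 h4
      exact ⟨Or.inr (Or.inl k1), Or.inl k2⟩) ht x x
  refine le_trans ?_ hle
  have hkey : ∀ z ∈ Metric.ball c2 ρ,
      Real.exp (-((4 * l ^ 2 + 10 * ρ ^ 2) / t)) / (Real.pi * t) ^ 4 * (Real.pi * ρ ^ 2) ^ 2
        ≤ KP (uI α) (hI α b) F1 (t / 2) x z * KP (uI α) (hI α b) F2 (t / 2) z x := by
    intro z hz
    have hzb := hz
    rw [Metric.mem_ball, dist_eq_norm] at hzb
    set f2 : ℂ := J (R2 z) - (x - ((2 * l : ℝ) : ℂ) * u0) with hf2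
    have nf2 : ‖f2‖ < ρ := by
      have h1 : x - ((2 * l : ℝ) : ℂ) * u0 = J (R2 c2) := by rw [hc2, RR, JJ]
      rw [hf2, h1, Jn, Rn]
      exact hzb
    have E2 : J (R2 z) = x - ((2 * l : ℝ) : ℂ) * u0 + f2 := by rw [hf2]; ring
    have hzq : ‖z - ((l / 2 : ℝ) : ℂ) * u2‖ < l / 2 * Real.cos α := near c2 _ z d2 hz
    have half1 : Real.exp (-((2 * l ^ 2 - 2 * l * ip u0 f2 + 5 * ρ ^ 2) / t)) / (Real.pi * t) ^ 2
        * (Real.pi * ρ ^ 2) ≤ KP (uI α) (hI α b) F1 (t / 2) x z := by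
      refine two_steps hO hOne 1 2 F1 (fun f g hf hg h1 h2 => ⟨f, g, hf, hg, h1, h2, rfl⟩) ht hρ
        (bp 1 (Or.inr rfl) x hxp) (bq 2 (Or.inl rfl) z hzq) (c := c1)
        (fun y hy => bq 1 (Or.inr rfl) y (near c1 _ y d1 hy))
        (fun y hy => bq 2 (Or.inl rfl) y (near c1 _ y d1 hy)) fun y hy => ?_
      rw [Metric.mem_ball, dist_eq_norm] at hy
      set f1 : ℂ := J y - (x - ((l : ℝ) : ℂ) * u0) with hf1
      have nf1 : ‖f1‖ < ρ := by
        have h1 : x - ((l : ℝ) : ℂ) * u0 = J c1 := by rw [hc1, JJ]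
        rw [hf1, h1, Jn]
        exact hy
      have E1 : J y = x - ((l : ℝ) : ℂ) * u0 + f1 := by rw [hf1]; ring
      have a1 : ‖x - rf (uI α) (hI α b) 1 y‖ = ‖(l : ℂ) * u0 + -f1‖ := by
        rw [rf_one]
        change ‖x - J y‖ = _
        rw [E1]
        congr 1
        ring
      have a2 : ‖y - rf (uI α) (hI α b) 2 z‖ = ‖(l : ℂ) * u0 + (f1 - f2)‖ := by
        rw [← Jn]
        change ‖J y - J (R2 z)‖ = _
        rw [E1, E2]
        congr 1
        push_cast
        ring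
      rw [a1, a2, norm_add_sq hn0, norm_add_sq hn0, hipneg f1, hipsub f1 f2, norm_neg]
      have n1 : ‖f1 - f2‖ ≤ 2 * ρ := (norm_sub_le _ _).trans (by linarith only [nf2, nf1])
      have n2 : ‖f1‖ ^ 2 ≤ ρ ^ 2 := pow_le_pow_left₀ (norm_nonneg _) nf1.le 2
      have n3 : ‖f1 - f2‖ ^ 2 ≤ (2 * ρ) ^ 2 := pow_le_pow_left₀ (norm_nonneg _) n1 2
      linarith only [n2, n3]
    have half2 : Real.exp (-((2 * l ^ 2 + 2 * l * ip u0 f2 + 5 * ρ ^ 2) / t)) / (Real.pi * t) ^ 2
        * (Real.pi * ρ ^ 2) ≤ KP (uI α) (hI α b) F2 (t / 2) z x := by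
      refine two_steps hO hOne 1 0 F2 (fun f g hf hg h1 h2 => ⟨f, g, hf, hg, h1, h2, rfl⟩) ht hρ
        (bq 1 (Or.inr rfl) z hzq) (bp 0 (Or.inl rfl) x hxp) (c := c3)
        (fun y hy => bp 1 (Or.inr rfl) y (near c3 _ y d3 hy))
        (fun y hy => bp 0 (Or.inl rfl) y (near c3 _ y d3 hy)) fun y hy => ?_
      rw [Metric.mem_ball, dist_eq_norm] at hy
      set f3 : ℂ := J (R2 (J y)) - (x - ((3 * l : ℝ) : ℂ) * u0) with hf3
      have nf3 : ‖f3‖ < ρ := by
        have h1 : x - ((3 * l : ℝ) : ℂ) * u0 = J (R2 (J c3)) := by rw [hc3, JJ, RR, JJ]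
        rw [hf3, h1, Jn, Rn, Jn]
        exact hy
      have E3 : J (R2 (J y)) = x - ((3 * l : ℝ) : ℂ) * u0 + f3 := by rw [hf3]; ring
      have a1 : ‖z - rf (uI α) (hI α b) 1 y‖ = ‖(l : ℂ) * u0 + (f2 - f3)‖ := by
        rw [rf_one]
        change ‖z - J y‖ = _
        rw [← Rn, ← Jn, E2, E3]
        congr 1
        push_cast
        ring
      have a2 : ‖y - rf (uI α) (hI α b) 0 x‖ = ‖(l : ℂ) * u0 + f3‖ := by
        rw [← Jn, ← Rn, ← Jn, E3]
        have h1 : J (R2 (J (rf (uI α) (hI α b) 0 x))) = x - ((4 * l : ℝ) : ℂ) * u0 := by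
          have h := rf_trans α b x
          rw [← hl] at h
          exact h
        rw [h1]
        congr 1
        push_cast
        ring
      rw [a1, a2, norm_add_sq hn0, norm_add_sq hn0, hipsub f2 f3]
      have n1 : ‖f2 - f3‖ ≤ 2 * ρ := (norm_sub_le _ _).trans (by linarith)
      have n2 : ‖f3‖ ^ 2 ≤ ρ ^ 2 := pow_le_pow_left₀ (norm_nonneg _) nf3.le 2
      have n3 : ‖f2 - f3‖ ^ 2 ≤ (2 * ρ) ^ 2 := pow_le_pow_left₀ (norm_nonneg _) n1 2
      linarith only [n2, n3]
    have hm := mul_le_mul half1 half2 (by positivity) (KP_nonneg hO (uI_norm α) _ ht2 _ _)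
    refine le_of_eq_of_le ?_ hm
    have hexp : Real.exp (-((4 * l ^ 2 + 10 * ρ ^ 2) / t))
        = Real.exp (-((2 * l ^ 2 - 2 * l * ip u0 f2 + 5 * ρ ^ 2) / t))
          * Real.exp (-((2 * l ^ 2 + 2 * l * ip u0 f2 + 5 * ρ ^ 2) / t)) := by
      rw [← Real.exp_add]
      congr 1
      field_simp
      ring
    rw [hexp]
    have hne : Real.pi * t ≠ 0 := by positivity
    field_simp
  have h5 := lb_ball hi (fun z => mul_nonneg (KP_nonneg hO (uI_norm α) _ ht2 _ _)
    (KP_nonneg hO (uI_norm α) _ ht2 _ _)) c2 hρ hkey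
  refine le_of_eq_of_le ?_ h5
  ring

theorem bnd (hL : LstStatement) (hO : OrdStatement) (hOne : OneStatement) : BndStatement := by
  classical
  intro α b hα3 hα hb
  have hpi := Real.pi_pos
  have hα0 : 0 < α := by linarith
  have hS : 0 < Real.sin α := Real.sin_pos_of_pos_of_lt_pi hα0 (by linarith)
  have hC : 0 < Real.cos α := Real.cos_pos_of_mem_Ioo ⟨by linarith, hα⟩
  set l : ℝ := b / 2 * Real.sin α with hl
  have hl0 : 0 < l := by positivity
  set r : ℝ := l * Real.cos α / 8 with hr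
  have hr0 : 0 < r := by positivity
  set c : ℝ := Real.exp (-(10 * r ^ 2)) / Real.pi ^ 4 * (Real.pi * r ^ 2) ^ 3
    * (Real.pi * r ^ 2) with hc
  refine ⟨c, by positivity, fun t ht ht1 => ?_⟩
  have hst : 0 < √t := Real.sqrt_pos.2 ht
  have hst1 : √t ≤ 1 := Real.sqrt_le_one.2 ht1.le
  have hρ : 0 < r * √t := by positivity
  have hρr : r * √t ≤ r := by nlinarith only [hr0, hst1]
  have hρ2 : (r * √t) ^ 2 = r ^ 2 * t := by rw [mul_pow, Real.sq_sqrt ht.le]
  set p : ℂ := ((l / 2 : ℝ) : ℂ) * uI α 0 with hp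
  have hd : ∀ x ∈ Metric.ball p r, Real.exp (-(10 * r ^ 2)) / Real.pi ^ 4 * (Real.pi * r ^ 2) ^ 3
      / t * Real.exp (-(La α b ^ 2 / (4 * t)))
      ≤ KP (uI α) (hI α b) (fun f => Lp f ∧ Lm f) t x x := by
    intro x hx
    rw [Metric.mem_ball, dist_eq_norm] at hx
    have h := dens hL hO hOne hα0 hα hb hl ht hρ hρr (by
      have : 2 * r = l * Real.cos α / 4 := by rw [hr]; ring
      rw [this]
      linarith only [mul_pos hl0 hC]) hx
    refine le_of_eq_of_le ?_ h
    rw [hρ2]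
    have hLa : La α b = 4 * l := by
      rw [hl]
      unfold La
      ring
    have he : Real.exp (-((4 * l ^ 2 + 10 * (r ^ 2 * t)) / t))
        = Real.exp (-(10 * r ^ 2)) * Real.exp (-(La α b ^ 2 / (4 * t))) := by
      rw [← Real.exp_add, hLa]
      congr 1
      field_simp
      ring
    rw [he]
    field_simp
  unfold LM
  have hcov : ENNReal.ofReal (c / t * Real.exp (-(La α b ^ 2 / (4 * t))))
      = ∫⁻ _ in Metric.ball p r, ENNReal.ofReal (Real.exp (-(10 * r ^ 2)) / Real.pi ^ 4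
        * (Real.pi * r ^ 2) ^ 3 / t * Real.exp (-(La α b ^ 2 / (4 * t)))) := by
    rw [setLIntegral_const]
    have hv : volume (Metric.ball p r) = ENNReal.ofReal (Real.pi * r ^ 2) := by
      rw [Complex.volume_ball, ← ENNReal.ofReal_pow hr0.le, ENNReal.ofReal_mul hpi.le, mul_comm]
      congr 1
      rw [← NNReal.coe_real_pi, ENNReal.ofReal_coe_nnreal]
    rw [hv, ← ENNReal.ofReal_mul (by positivity)]
    congr 1
    rw [hc]
    ring
  rw [hcov]
  refine le_trans ?_ (setLIntegral_le_lintegral (Metric.ball p r) _)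
  refine setLIntegral_mono' measurableSet_ball fun x hx => ?_
  refine ENNReal.ofReal_le_ofReal ?_
  refine (hd x hx).trans (le_of_eq ?_)
  unfold KP
  refine Finset.sum_congr rfl fun f _ => ?_
  split_ifs <;> rfl

end main

end Pool.Agent.XQ.GI.H21
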