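import Pool.Agent.Helper35_XQ.Stmt

/-! Squad XQ, Part A2, module GI_ONE. -/

set_option autoImplicit false

namespace Pool.Agent.XQ.GI.H21

open MeasureTheory Complex Filter Topology Pool.Agent.H62T Pool.Agent.H60K Pool.Agent.XQ.GI

theorem one (hLab : LabStatement) (hHpk : HpkStatement) (hOrd : OrdStatement) : OneStatement := by
  classical
  intro u h hu s t z x ht hz hx
  obtain ⟨-, hO⟩ := hOrd u h hu
  obtain ⟨-, -, -, hsum, -, hkA⟩ := hO t z x ht
  obtain ⟨-, hL⟩ := hLab u h hu
  obtain ⟨-, hpB, -⟩ := hL t z x ht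
  have h1 : ∀ f : Lb, f (sg s) = em ↔ s ∈ vs f := by
    intro f
    simp [vs]
  have h2 : pB u h {s} t z x = ∑ f : Lb, if s ∉ vs f then KO u h f t z x else 0 := by
    rw [hpB]
    have h3 : ∀ A ∈ (({s} : Finset (Fin 3))ᶜ).powerset, kA u h A t z x
        = ∑ f : Lb, if vs f = A then KO u h f t z x else 0 := fun A _ => hkA A
    rw [Finset.sum_congr rfl h3, Finset.sum_comm]
    refine Finset.sum_congr rfl fun f _ => ?_
    rw [Finset.sum_ite_eq]
    congr 1
    simp only [Finset.mem_powerset, Finset.subset_compl_singleton]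
  have h4 : pB u h {s} t z x = G t (z - x) - G t (z - rf u h s x) := by
    have h5 : Dm u h {s} = {z | ip (u s) z < h s} := by
      unfold Dm
      simp
    unfold pB
    rw [h5]
    exact hHpk (u s) (h s) t z x (hu s) ht hz hx
  have h6 : (∑ f : Lb, if s ∈ vs f then KO u h f t z x else 0)
      + (∑ f : Lb, if s ∉ vs f then KO u h f t z x else 0) = G t (z - x) := by
    rw [← hsum, ← Finset.sum_add_distrib]
    refine Finset.sum_congr rfl fun f _ => ?_
    by_cases hf : s ∈ vs f <;> simp [hf]
  have h7 : (∑ f : Lb, if f (sg s) = em then KO u h f t z x else 0)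
      = ∑ f : Lb, if s ∈ vs f then KO u h f t z x else 0 := by
    refine Finset.sum_congr rfl fun f _ => ?_
    by_cases hf : s ∈ vs f
    · rw [if_pos ((h1 f).2 hf), if_pos hf]
    · rw [if_neg (fun h => hf ((h1 f).1 h)), if_neg hf]
  rw [h7]
  linarith

end Pool.Agent.XQ.GI.H21
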